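import Pool.Agent.D0H76.Mumford.Heis

/-!
A Mumford group attached to a self-duality, and the projector attached to an isomorphism with a
generalized Heisenberg group.
-/

namespace Pool.Agent.D0H76.Mumford

open Filter Topology

namespace HG

section nonheis

variable {K T : Type} [AddCommGroup K] [AddCommGroup T] {B : K →+ K →+ T}

lemma commute_iff (g h : HG B) : g * h = h * g → B g.k h.k - B h.k g.k = 0 := by
  intro hc
  have h1 := congrArg HG.t hc
  simp only [mul_t] at h1
  rw [add_comm h.t g.t] at h1
  rw [sub_eq_zero]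
  exact add_left_cancel h1

lemma exists_projector (hnd : ∀ x, (∀ y, B x y - B y x = 0) → x = 0)
    {E F A : Type*} [AddCommGroup E] [AddCommGroup F] [AddCommGroup A] (ω : E →+ F →+ A)
    (f : HG B ≃ A × E × F)
    (hf : ∀ x y, f (x * y) = ((f x).1 + (f y).1 + ω (f x).2.1 (f y).2.2,
      (f x).2.1 + (f y).2.1, (f x).2.2 + (f y).2.2)) :
    ∃ e : K →+ K, (∀ x y, B (e x) (e y) - B (e y) (e x) = 0) ∧
      (∀ x y, B (x - e x) (y - e y) - B (y - e y) (x - e x) = 0) := by
  have hs : ∀ u v : A × E × F, f.symm (u.1 + v.1 + ω u.2.1 v.2.2, u.2.1 + v.2.1, u.2.2 + v.2.2) =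
      f.symm u * f.symm v := by
    intro u v
    apply f.injective
    rw [f.apply_symm_apply, hf, f.apply_symm_apply, f.apply_symm_apply]
  let P : E →+ K := AddMonoidHom.mk' (fun b => (f.symm (0, b, 0)).k) (by
    intro b b'
    have := hs (0, b, 0) (0, b', 0)
    simp only [add_zero, map_zero] at this
    rw [this, mul_k])
  have hP : ∀ b, P b = (f.symm (0, b, 0)).k := fun b => rfl
  have hbc : ∀ g h : HG B, (f (g * h)).2.1 = (f g).2.1 + (f h).2.1 := by
    intro g h
    rw [hf]
  have hz : ∀ z : HG B, z.k = 0 → P (f z).2.1 = 0 := by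
    intro z hz
    have hzc : ∀ g : HG B, z * g = g * z := by
      intro g
      ext
      · simp [hz, add_comm]
      · simp [hz]
    have h1 : ∀ c, ω (f z).2.1 c = 0 := by
      intro c
      have h2 := congrArg f (hzc (f.symm (0, 0, c)))
      rw [hf, hf, f.apply_symm_apply] at h2
      have h3 := congrArg Prod.fst h2
      simpa using h3
    apply hnd
    intro y
    have h4 : f.symm (0, (f z).2.1, 0) * (⟨0, y⟩ : HG B) = (⟨0, y⟩ : HG B) *
        f.symm (0, (f z).2.1, 0) := by
      apply f.injective
      rw [hf, hf, f.apply_symm_apply]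
      simp only [h1, map_zero, add_zero, zero_add]
      rw [add_comm (f z).2.1]
    have := commute_iff _ _ h4
    exact this
  let e : K →+ K := AddMonoidHom.mk' (fun x => P (f ⟨0, x⟩).2.1) (by
    intro x y
    rw [← map_add, ← hbc]
    have h1 : (⟨0, x⟩ * ⟨0, y⟩ : HG B) = ⟨B x y, 0⟩ * ⟨0, x + y⟩ := by
      ext <;> simp
    rw [h1, hbc, map_add, hz ⟨B x y, 0⟩ rfl, zero_add])
  have he : ∀ x, e x = (f.symm (0, (f ⟨0, x⟩).2.1, 0)).k := fun x => rfl
  have he' : ∀ x, x - e x = (f.symm ((f ⟨0, x⟩).1, 0, (f ⟨0, x⟩).2.2)).k := by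
    intro x
    have h1 := hs ((f ⟨0, x⟩).1, 0, (f ⟨0, x⟩).2.2) (0, (f ⟨0, x⟩).2.1, 0)
    simp only [add_zero, zero_add, map_zero] at h1
    have h2 : f.symm ((f ⟨0, x⟩).1, (f ⟨0, x⟩).2.1, (f ⟨0, x⟩).2.2) = (⟨0, x⟩ : HG B) :=
      f.symm_apply_apply _
    rw [h2] at h1
    have h3 := congrArg HG.k h1
    rw [mul_k] at h3
    rw [he, sub_eq_iff_eq_add]
    exact h3
  refine ⟨e, ?_, ?_⟩
  · intro x y
    rw [he, he]
    apply commute_iff
    rw [← hs, ← hs]
    simp [add_comm]
  · intro x y
    rw [he', he']
    apply commute_iff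
    rw [← hs, ← hs]
    simp [add_comm]

end nonheis

section mumford

variable {K : Type} [AddCommGroup K] [TopologicalSpace K] {B : K →+ K →+ Additive Circle}

/-- The center of the group. -/
noncomputable def centerEquiv (hnd : ∀ x, (∀ y, B x y - B y x = 0) → x = 0) :
    Subgroup.center (HG B) ≃ₜ* Circle where
  toFun g := (g.1.t).toMul
  invFun c := ⟨⟨Additive.ofMul c, 0⟩, (mem_center_iff hnd _).2 rfl⟩
  left_inv g := by
    have := (mem_center_iff hnd g.1).1 g.2
    apply Subtype.ext
    ext
    · rfl
    · rw [this]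
  right_inv c := rfl
  map_mul' g h := by
    have := (mem_center_iff hnd g.1).1 g.2
    rw [Subgroup.coe_mul, mul_t, this]
    simp
  continuous_toFun := continuous_toMul.comp (continuous_t.comp continuous_subtype_val)
  continuous_invFun := (continuous_mk continuous_ofMul continuous_const).subtype_mk _

/-- The quotient by the center. -/
noncomputable def quotEquiv (hnd : ∀ x, (∀ y, B x y - B y x = 0) → x = 0) :
    (HG B ⧸ Subgroup.center (HG B)) ≃ₜ* Multiplicative K where
  toFun := QuotientGroup.lift (Subgroup.center (HG B)) proj (fun g hg => by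
    have := (mem_center_iff hnd g).1 hg
    change Multiplicative.ofAdd g.k = 1
    rw [this]
    rfl)
  invFun x := QuotientGroup.mk (⟨0, x.toAdd⟩ : HG B)
  left_inv g := by
    induction g using QuotientGroup.induction_on with
    | H g =>
      change QuotientGroup.mk (⟨0, g.k⟩ : HG B) = QuotientGroup.mk g
      rw [QuotientGroup.eq, mem_center_iff hnd]
      simp
  right_inv x := rfl
  map_mul' g h := map_mul _ g h
  continuous_toFun := by
    refine Continuous.quotient_lift (f := fun g : HG B => Multiplicative.ofAdd g.k) ?_ _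
    exact continuous_ofAdd.comp continuous_k
  continuous_invFun := by
    exact continuous_quotient_mk'.comp (continuous_mk continuous_const continuous_toAdd)

end mumford

end HG

/-- Dual of a topological isomorphism. -/
noncomputable def dualCongr {P Q : Type} [Monoid P] [Monoid Q] [TopologicalSpace P]
    [TopologicalSpace Q] (φ : P ≃ₜ* Q) : PontryaginDual Q ≃ₜ* PontryaginDual P where
  toFun χ := PontryaginDual.map (ContinuousMonoidHom.mk φ.toMulEquiv.toMonoidHom φ.continuous_toFun) χ
  invFun χ := PontryaginDual.map (ContinuousMonoidHom.mk φ.symm.toMulEquiv.toMonoidHom φ.symm.continuous_toFun) χ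
  left_inv χ := by
    apply PontryaginDual.ext
    intro x
    change χ (φ (φ.symm x)) = χ x
    rw [φ.apply_symm_apply]
  right_inv χ := by
    apply PontryaginDual.ext
    intro x
    change χ (φ.symm (φ x)) = χ x
    rw [φ.symm_apply_apply]
  map_mul' χ ψ := map_mul _ χ ψ
  continuous_toFun := (PontryaginDual.map _).continuous_toFun
  continuous_invFun := (PontryaginDual.map _).continuous_toFun

namespace HG

/-- The Mumford property of the group attached to a form whose commutator form is a self-duality. -/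
theorem mumford {K : Type} [AddCommGroup K] [TopologicalSpace K] {B : K →+ K →+ Additive Circle}
    (MK : Multiplicative K ≃ₜ* PontryaginDual (Multiplicative K))
    (hMK : ∀ x y, MK (Multiplicative.ofAdd x) (Multiplicative.ofAdd y) = (B x y - B y x).toMul) :
    ∃ (hG : ∀ x y : HG B, x * y * x⁻¹ * y⁻¹ ∈ Subgroup.center (HG B))
      (e : Subgroup.center (HG B) ≃ₜ* Circle)
      (M : (HG B ⧸ Subgroup.center (HG B)) ≃ₜ* PontryaginDual (HG B ⧸ Subgroup.center (HG B))),
      ∀ x y : HG B, M (x : HG B ⧸ Subgroup.center (HG B)) (y : HG B ⧸ Subgroup.center (HG B)) =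
        e ⟨x * y * x⁻¹ * y⁻¹, hG x y⟩ := by
  have hnd : ∀ x, (∀ y, B x y - B y x = 0) → x = 0 := by
    intro x hx
    have : MK (Multiplicative.ofAdd x) = 1 := by
      apply PontryaginDual.ext
      intro y
      have h := hMK x y.toAdd
      rw [hx] at h
      exact h
    have h2 := (map_eq_one_iff MK MK.injective).1 this
    exact h2
  refine ⟨fun x y => (mem_center_iff hnd _).2 (comm_k x y), centerEquiv hnd,
    ((quotEquiv hnd).trans MK).trans (dualCongr (quotEquiv hnd)), ?_⟩
  intro x y
  change MK (Multiplicative.ofAdd x.k) (Multiplicative.ofAdd y.k) = ((x * y * x⁻¹ * y⁻¹).t).toMul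
  rw [hMK, comm_t]

end HG

end Pool.Agent.D0H76.Mumford
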