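import Pool.Agent.D0H76.Mumford.Global2

/-!
There is no projector with isotropic image and kernel on the restricted product.
-/

namespace Pool.Agent.D0H76.Mumford

open scoped RestrictedProduct
open Filter Topology

section

variable {ι : Type} {K : ι → Type} [∀ i, AddCommGroup (K i)]
  (L : ∀ i, AddSubgroup (K i)) (c : ∀ i, K i →+ K i →+ Additive Circle)

/-- evaluation at a coordinate. -/
def evl (i : ι) : X L →+ K i := AddMonoidHom.mk' (fun x => x i) (fun x y => by
    rw [RestrictedProduct.add_apply])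

lemma adj_of {A T : Type*} [AddCommGroup A] [AddCommGroup T] (C : A →+ A →+ T) (e : A →+ A)
    (h1 : ∀ x y, C (e x) (e y) = 0) (h2 : ∀ x y, C (x - e x) (y - e y) = 0) (x y : A) :
    C (e x) y = C x y - C x (e y) := by
  have h := h2 x y
  simp only [map_sub, AddMonoidHom.sub_apply, h1, sub_zero] at h
  rw [sub_sub, sub_eq_zero] at h
  rw [h]
  abel

lemma eq_zero_of_coprime {A : Type*} [AddCommGroup A] (m n : ℕ) (h : Nat.Coprime m n) (z : A)
    (hm : m • z = 0) (hn : n • z = 0) : z = 0 := by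
  have h1 : addOrderOf z ∣ m := addOrderOf_dvd_of_nsmul_eq_zero hm
  have h2 : addOrderOf z ∣ n := addOrderOf_dvd_of_nsmul_eq_zero hn
  have h3 : addOrderOf z ∣ 1 := by
    rw [← h]
    exact Nat.dvd_gcd h1 h2
  rw [← AddMonoid.addOrderOf_eq_one_iff]
  exact Nat.dvd_one.1 h3

lemma no_proj [Infinite ι] (N : ι → ℕ) (hN : ∀ i, ∀ x : K i, N i • x = 0)
    (hcop : ∀ i j, i ≠ j → Nat.Coprime (N i) (N j))
    (hiso : ∀ i, ∀ x ∈ L i, ∀ y ∈ L i, c i x y = 0)
    (hnd : ∀ i x, (∀ y, c i x y = 0) → x = 0)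
    (hns : ∀ i (e : K i →+ K i), (∀ x y, c i (e x) (e y) = 0) →
      (∀ x y, c i (x - e x) (y - e y) = 0) → ∃ x ∈ L i, e x ∉ L i)
    (e : X L →+ X L) (h1 : ∀ x y, B L c hiso (e x) (e y) = 0)
    (h2 : ∀ x y, B L c hiso (x - e x) (y - e y) = 0) : False := by
  classical
  have adj := adj_of (B L c hiso) e h1 h2
  let e' : ∀ i, K i →+ K i := fun i => ((evl L i).comp e).comp (sgl L i)
  have he' : ∀ i u, e' i u = (e (sgl L i u)) i := fun i u => rfl
  have hsupp : ∀ i u, e (sgl L i u) = sgl L i (e' i u) := by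
    intro i u
    ext j
    by_cases hj : j = i
    · subst hj
      rw [sgl_same, he']
    · rw [sgl_ne L hj]
      apply eq_zero_of_coprime (N i) (N j) (hcop i j (fun h => hj h.symm)) _ _ (hN j _)
      have h3 : N i • (e (sgl L i u)) = 0 := by
        rw [← map_nsmul, ← map_nsmul, hN, map_zero, map_zero]
      rw [← RestrictedProduct.nsmul_apply, h3]
      rfl
  have hBs : ∀ i u v, B L c hiso (sgl L i u) (sgl L i v) = c i u v := by
    intro i u v
    have := B_single L c hiso (sgl L i u) i v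
    rw [sgl_same] at this
    exact this
  have h1' : ∀ i x y, c i (e' i x) (e' i y) = 0 := by
    intro i x y
    rw [← hBs, ← hsupp, ← hsupp, h1]
  have h2' : ∀ i x y, c i (x - e' i x) (y - e' i y) = 0 := by
    intro i x y
    rw [← hBs, map_sub (sgl L i), map_sub (sgl L i), ← hsupp, ← hsupp, h2]
  have hx := fun i => hns i (e' i) (h1' i) (h2' i)
  choose x0 hx0 hx1 using hx
  let x : X L := ⟨x0, Filter.Eventually.of_forall hx0⟩
  have hex : ∀ i, (e x) i = e' i (x0 i) := by
    intro i
    rw [← sub_eq_zero]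
    apply hnd
    intro u
    rw [map_sub, AddMonoidHom.sub_apply, sub_eq_zero]
    have h3 : c i ((e x) i) u = B L c hiso (e x) (sgl L i u) := (B_single L c hiso (e x) i u).symm
    have h4 : B L c hiso x (sgl L i u) = c i (x0 i) u := B_single L c hiso x i u
    have h5 : B L c hiso x (e (sgl L i u)) = c i (x0 i) (e' i u) := by
      rw [hsupp]
      exact B_single L c hiso x i _
    rw [h3, adj, h4, h5, adj_of (c i) (e' i) (h1' i) (h2' i)]
  have hev := (e x).eventually
  rw [Filter.eventually_cofinite] at hev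
  have : {i | ¬ (e x) i ∈ (L i : Set (K i))} = Set.univ := by
    ext i
    simp only [SetLike.mem_coe, Set.mem_ofPred_eq, Set.mem_univ, iff_true]
    rw [hex]
    exact hx1 i
  rw [this] at hev
  exact Set.infinite_univ hev

end

end Pool.Agent.D0H76.Mumford
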