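import Pool.Agent.D0H76.Mumford.Local
import Pool.Agent.D0H76.Mumford.NoProj
import Pool.Agent.D0H76.Mumford.Heis2

/-!
Assembly: a Mumford group with center the circle which is not a generalized Heisenberg group.
-/

namespace Pool.Agent.D0H76.Mumford

open scoped RestrictedProduct
open Filter Topology

/-- Counting: an injective homomorphism to the dual is surjective. -/
lemma surj_of_inj {A : Type} [AddCommGroup A] [Finite A] (c : A →+ A →+ Additive Circle)
    (hnd : ∀ x, (∀ y, c x y = 0) → x = 0) (χ : A →+ Additive Circle) :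
    ∃ x, ∀ y, χ y = c x y := by
  classical
  cases nonempty_fintype A
  let φ : A → AddChar A ℂ := fun x => AddChar.circleEquivComplex
    (AddChar.toAddMonoidHomEquiv.symm (c x))
  have hφ : Function.Injective φ := by
    intro x y hxy
    have h1 := AddChar.circleEquivComplex.injective hxy
    have h2 := AddChar.toAddMonoidHomEquiv.symm.injective h1
    rw [← sub_eq_zero]
    apply hnd
    intro z
    rw [map_sub, h2, sub_self]
    rfl
  have hcard : Fintype.card (AddChar A ℂ) = Fintype.card A := AddChar.card_eq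
  have hbij : Function.Bijective φ :=
    (Fintype.bijective_iff_injective_and_card φ).2 ⟨hφ, hcard.symm⟩
  obtain ⟨x, hx⟩ := hbij.2 (AddChar.circleEquivComplex (AddChar.toAddMonoidHomEquiv.symm χ))
  have h1 := AddChar.circleEquivComplex.injective hx
  have h2 := AddChar.toAddMonoidHomEquiv.symm.injective h1
  exact ⟨x, fun y => by rw [h2]⟩

/-- `ZMod.toCircle` as an additive homomorphism. -/
noncomputable def tc (N : ℕ) [NeZero N] : ZMod N →+ Additive Circle :=
  (ZMod.toCircle (N := N)).toAddMonoidHom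

lemma tc_eq_zero (N : ℕ) [NeZero N] (x : ZMod N) (h : tc N x = 0) : x = 0 := by
  have h1 : ZMod.toCircle x = ZMod.toCircle (0 : ZMod N) := by
    rw [AddChar.map_zero_eq_one]
    exact h
  exact ZMod.injective_toCircle h1

/-- The circle valued form on `K_p`. -/
noncomputable def bp (p : ℕ) [NeZero (p ^ 10)] : Kp p →+ Kp p →+ Additive Circle :=
  AddMonoidHom.mk' (fun x => (tc (p ^ 10)).comp (q p x)) (fun x y => by
    ext z : 1
    simp)

lemma bp_apply (p : ℕ) [NeZero (p ^ 10)] (x y : Kp p) : bp p x y = tc (p ^ 10) (q p x y) := rfl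

lemma q_antisymm (p : ℕ) (x y : Kp p) : q p y x = - q p x y := by
  have h := q_self p (x + y)
  simp only [map_add, AddMonoidHom.add_apply, q_self, zero_add, add_zero] at h
  exact eq_neg_of_add_eq_zero_left h

/-- The commutator form of a form. -/
def cf {A T : Type*} [AddCommGroup A] [AddCommGroup T] (b : A →+ A →+ T) : A →+ A →+ T :=
  b - b.flip

lemma cf_apply {A T : Type*} [AddCommGroup A] [AddCommGroup T] (b : A →+ A →+ T) (x y : A) :
    cf b x y = b x y - b y x := rfl

lemma eq_zero_of_odd {A : Type*} [AddCommGroup A] (n : ℕ) (hn : Odd n) (z : A)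
    (h1 : n • z = 0) (h2 : z + z = 0) : z = 0 := by
  obtain ⟨k, rfl⟩ := hn
  rw [add_smul, one_smul, mul_comm, mul_smul, two_smul, h2, smul_zero, zero_add] at h1
  exact h1

lemma cf_bp_eq_zero (p : ℕ) [NeZero (p ^ 10)] (hp : Odd p) (x y : Kp p)
    (h : cf (bp p) x y = 0) : q p x y = 0 := by
  rw [cf_apply, bp_apply, bp_apply, ← map_sub, q_antisymm p x y] at h
  have h1 := tc_eq_zero _ _ h
  rw [sub_neg_eq_add] at h1
  apply eq_zero_of_odd (p ^ 10) hp.pow _ _ h1
  rw [nsmul_eq_mul, ZMod.natCast_self, zero_mul]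

lemma cf_bp_eq_zero' (p : ℕ) [NeZero (p ^ 10)] (x y : Kp p)
    (h : q p x y = 0) : cf (bp p) x y = 0 := by
  rw [cf_apply, bp_apply, bp_apply, ← map_sub, q_antisymm p x y, h]
  simp

/-- The index set: odd primes. -/
def OddPrime : Type := {p : ℕ // p.Prime ∧ 3 ≤ p}

instance (i : OddPrime) : Fact (i.1.Prime) := ⟨i.2.1⟩
instance (i : OddPrime) : NeZero (i.1 ^ 10) := ⟨pow_ne_zero _ i.2.1.ne_zero⟩

lemma OddPrime.odd (i : OddPrime) : Odd i.1 :=
  i.2.1.odd_of_ne_two (by have := i.2.2; omega)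

instance : Infinite OddPrime := by
  rw [← not_finite_iff_infinite]
  intro h
  have hb : (Set.range (fun i : OddPrime => i.1)).Finite := Set.finite_range _
  obtain ⟨M, hM⟩ := hb.bddAbove
  obtain ⟨p, hp1, hp2⟩ := Nat.exists_infinite_primes (M + 3)
  have := hM ⟨⟨p, hp2, by omega⟩, rfl⟩
  simp only at this
  omega

lemma OddPrime.coprime (i j : OddPrime) (h : i ≠ j) : Nat.Coprime (i.1 ^ 10) (j.1 ^ 10) := by
  apply Nat.Coprime.pow
  rw [Nat.coprime_primes i.2.1 j.2.1]
  intro h'
  exact h (Subtype.ext h')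

instance (i : OddPrime) : TopologicalSpace (Kp i.1) := ⊥
instance (i : OddPrime) : DiscreteTopology (Kp i.1) := ⟨rfl⟩

/-- The local Lagrangians. -/
abbrev LL (i : OddPrime) : AddSubgroup (Kp i.1) := Lp i.1

/-- The local forms. -/
noncomputable def bb (i : OddPrime) : Kp i.1 →+ Kp i.1 →+ Additive Circle := bp i.1

/-- The local commutator forms. -/
noncomputable def cc (i : OddPrime) : Kp i.1 →+ Kp i.1 →+ Additive Circle := cf (bb i)

lemma bb_iso (i : OddPrime) : ∀ x ∈ LL i, ∀ y ∈ LL i, bb i x y = 0 := by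
  intro x hx y hy
  change tc _ (q i.1 x y) = 0
  rw [Lp_isotropic i.1 x y hx hy, map_zero]

lemma cc_iso (i : OddPrime) : ∀ x ∈ LL i, ∀ y ∈ LL i, cc i x y = 0 := by
  intro x hx y hy
  exact cf_bp_eq_zero' i.1 x y (Lp_isotropic i.1 x y hx hy)

lemma cc_nd (i : OddPrime) (x : Kp i.1) (h : ∀ y, cc i x y = 0) : x = 0 :=
  q_nondeg i.1 x (fun y => cf_bp_eq_zero i.1 i.odd x y (h y))

lemma cc_lag (i : OddPrime) (x : Kp i.1) (h : ∀ y ∈ LL i, cc i x y = 0) : x ∈ LL i :=
  Lp_lagrangian i.1 x (fun y hy => cf_bp_eq_zero i.1 i.odd x y (h y hy))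

lemma cc_surj (i : OddPrime) (χ : Kp i.1 →+ Additive Circle) : ∃ x, ∀ y, χ y = cc i x y :=
  surj_of_inj (cc i) (cc_nd i) χ

lemma cc_ns (i : OddPrime) (e : Kp i.1 →+ Kp i.1) (h1 : ∀ x y, cc i (e x) (e y) = 0)
    (h2 : ∀ x y, cc i (x - e x) (y - e y) = 0) : ∃ x ∈ LL i, e x ∉ LL i := by
  by_contra hcon
  push Not at hcon
  exact Lp_nonsplit i.1 e (fun x y => cf_bp_eq_zero i.1 i.odd _ _ (h1 x y))
    (fun x y => cf_bp_eq_zero i.1 i.odd _ _ (h2 x y)) hcon

/-- The locally compact abelian group `K`. -/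
abbrev XX : Type := X LL

/-- The global form. -/
noncomputable def BB : XX →+ XX →+ Additive Circle := B LL bb bb_iso

lemma BB_comm (x y : XX) : BB x y - BB y x = B LL cc cc_iso x y := by
  change B LL bb bb_iso x y - B LL bb bb_iso y x = _
  rw [B_apply, B_apply, B_apply, ← finsum_sub_distrib (finsupp_b LL bb bb_iso x y)
    (finsupp_b LL bb bb_iso y x)]
  rfl

/-- The self-duality. -/
noncomputable def MK : Multiplicative XX ≃ₜ* PontryaginDual (Multiplicative XX) :=
  let f : Multiplicative XX ≃* PontryaginDual (Multiplicative XX) :=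
    MulEquiv.ofBijective (Mfun LL cc cc_iso)
      ⟨Mfun_injective LL cc cc_iso cc_nd, Mfun_surjective LL cc cc_iso cc_surj cc_lag⟩
  { f with
    continuous_toFun := Mfun_continuous LL cc cc_iso
    continuous_invFun := Minv_continuous LL cc cc_iso cc_nd cc_lag f.symm.toMonoidHom
      (fun χ => f.apply_symm_apply χ) }

lemma MK_apply (x y : XX) : MK (Multiplicative.ofAdd x) (Multiplicative.ofAdd y) =
    (BB x y - BB y x).toMul := by
  rw [BB_comm]
  rfl

lemma XX_nd (x : XX) (h : ∀ y, BB x y - BB y x = 0) : x = 0 := by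
  classical
  ext i
  apply cc_nd
  intro u
  have h1 := h (sgl LL i u)
  rw [BB_comm] at h1
  rw [← B_single LL cc cc_iso x i u]
  exact h1

end Pool.Agent.D0H76.Mumford
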