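import Mathlib

/-!
Restricted products of finite groups with symplectic forms and Lagrangian subgroups.
-/

namespace Pool.Agent.D0H76.Mumford

open scoped RestrictedProduct
open Filter Topology

section

variable {ι : Type} {K : ι → Type} [∀ i, AddCommGroup (K i)]
  (L : ∀ i, AddSubgroup (K i)) (b : ∀ i, K i →+ K i →+ Additive Circle)

/-- The restricted product. -/
abbrev X : Type := Πʳ i, [K i, L i]


lemma finsupp_b (hiso : ∀ i, ∀ x ∈ L i, ∀ y ∈ L i, b i x y = 0) (x y : X L) :
    (Function.support fun i => b i (x i) (y i)).Finite := by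
  have hx := x.eventually
  have hy := y.eventually
  have := hx.and hy
  rw [Filter.eventually_cofinite] at this
  refine this.subset ?_
  intro i hi h
  exact hi (hiso i _ h.1 _ h.2)

/-- The global form. -/
noncomputable def B (hiso : ∀ i, ∀ x ∈ L i, ∀ y ∈ L i, b i x y = 0) :
    X L →+ X L →+ Additive Circle :=
  AddMonoidHom.mk' (fun x => AddMonoidHom.mk' (fun y => ∑ᶠ i, b i (x i) (y i)) (by
    intro y z
    rw [← finsum_add_distrib (finsupp_b L b hiso x y) (finsupp_b L b hiso x z)]
    apply finsum_congr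
    intro i
    rw [RestrictedProduct.add_apply, map_add])) (by
    intro x y
    ext z : 1
    simp only [AddMonoidHom.mk'_apply, AddMonoidHom.add_apply]
    rw [← finsum_add_distrib (finsupp_b L b hiso x z) (finsupp_b L b hiso y z)]
    apply finsum_congr
    intro i
    rw [RestrictedProduct.add_apply, map_add]
    rfl)

lemma B_apply (hiso : ∀ i, ∀ x ∈ L i, ∀ y ∈ L i, b i x y = 0) (x y : X L) :
    B L b hiso x y = ∑ᶠ i, b i (x i) (y i) := rfl

lemma B_eq_zero (hiso : ∀ i, ∀ x ∈ L i, ∀ y ∈ L i, b i x y = 0) (x y : X L)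
    (h : ∀ i, b i (x i) (y i) = 0) : B L b hiso x y = 0 := by
  rw [B_apply]
  exact finsum_eq_zero_of_forall_eq_zero h

lemma B_single [DecidableEq ι] (hiso : ∀ i, ∀ x ∈ L i, ∀ y ∈ L i, b i x y = 0) (x : X L) (i : ι)
    (u : K i) : B L b hiso x (RestrictedProduct.single L i u) = b i (x i) u := by
  rw [B_apply, finsum_eq_single _ i]
  · rw [RestrictedProduct.single_eq_same]
  · intro j hj
    rw [RestrictedProduct.single_eq_of_ne _ _ hj, map_zero]

lemma B_single_left [DecidableEq ι] (hiso : ∀ i, ∀ x ∈ L i, ∀ y ∈ L i, b i x y = 0) (x : X L)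
    (i : ι) (u : K i) : B L b hiso (RestrictedProduct.single L i u) x = b i u (x i) := by
  rw [B_apply, finsum_eq_single _ i]
  · rw [RestrictedProduct.single_eq_same]
  · intro j hj
    rw [RestrictedProduct.single_eq_of_ne _ _ hj, map_zero]
    rfl

/-- The inclusion of a factor. -/
def sgl [DecidableEq ι] (i : ι) : K i →+ X L :=
  AddMonoidHom.mk' (fun u => RestrictedProduct.single L i u) (fun u v => by
    rw [RestrictedProduct.single_add])

lemma sgl_same [DecidableEq ι] (i : ι) (u : K i) : sgl L i u i = u :=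
  RestrictedProduct.single_eq_same L i u

lemma sgl_ne [DecidableEq ι] {i j : ι} (h : j ≠ i) (u : K i) : sgl L i u j = 0 :=
  RestrictedProduct.single_eq_of_ne L u h

lemma sgl_mem_L [DecidableEq ι] (i : ι) (u : K i) (hu : u ∈ L i) (j : ι) : sgl L i u j ∈ L j := by
  by_cases h : j = i
  · subst h; rw [sgl_same]; exact hu
  · rw [sgl_ne L h]; exact (L j).zero_mem

variable [∀ i, TopologicalSpace (K i)] [∀ i, DiscreteTopology (K i)]

instance factOpen : Fact (∀ i, IsOpen (L i : Set (K i))) := ⟨fun _ => isOpen_discrete _⟩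

/-- basic neighbourhoods -/
lemma isOpen_W (S : Set ι) (hS : S.Finite) :
    IsOpen {x : X L | (∀ i, x i ∈ L i) ∧ ∀ i ∈ S, x i = 0} := by
  have h1 : IsOpen {x : X L | ∀ i, x.1 i ∈ (L i : Set (K i))} :=
    RestrictedProduct.isOpen_forall_mem (fun i => isOpen_discrete _)
  have h2 : IsOpen {x : X L | ∀ i ∈ S, x i = 0} := by
    have : {x : X L | ∀ i ∈ S, x i = 0} = ⋂ i ∈ S, {x : X L | x i = 0} := by
      ext x; simp
    rw [this]
    apply hS.isOpen_biInter
    intro i _
    exact (isOpen_discrete ({0} : Set (K i))).preimage (RestrictedProduct.continuous_eval i)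
  exact h1.inter h2

lemma W_mem_nhds (S : Set ι) (hS : S.Finite) :
    {x : X L | (∀ i, x i ∈ L i) ∧ ∀ i ∈ S, x i = 0} ∈ 𝓝 (0 : X L) := by
  apply (isOpen_W L S hS).mem_nhds
  exact ⟨fun i => (L i).zero_mem, fun i _ => rfl⟩

/-- The `W_S` form a basis of neighbourhoods of zero. -/
lemma exists_W_subset (U : Set (X L)) (hU : U ∈ 𝓝 (0 : X L)) :
    ∃ S : Set ι, S.Finite ∧ {x : X L | (∀ i, x i ∈ L i) ∧ ∀ i ∈ S, x i = 0} ⊆ U := by
  have h0 : (0 : X L) = RestrictedProduct.structureMap K (fun i => (L i : Set (K i))) cofinite 0 := by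
    ext i; rfl
  rw [h0, RestrictedProduct.nhds_eq_map_structureMap (R := K)
    (A := fun i => (L i : Set (K i))) (fun i => isOpen_discrete (L i : Set (K i))) 0,
    Filter.mem_map, nhds_pi, Filter.mem_pi] at hU
  obtain ⟨S, hS, t, ht, hsub⟩ := hU
  refine ⟨S, hS, ?_⟩
  rintro x ⟨hx1, hx2⟩
  obtain ⟨x', rfl⟩ := RestrictedProduct.exists_structureMap_eq_of_forall K
    (fun i => (L i : Set (K i))) (𝓕 := cofinite) (x := x) hx1
  apply hsub
  intro i hi
  have : x' i = 0 := Subtype.ext (hx2 i hi)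
  rw [this]
  exact mem_of_mem_nhds (ht i)

end

end Pool.Agent.D0H76.Mumford
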