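import Pool.Agent.D0H76.Mumford.Global

/-!
Restricted products of finite groups with symplectic forms and Lagrangian subgroups:
continuity of the form and the self-duality.
-/

namespace Pool.Agent.D0H76.Mumford

open scoped RestrictedProduct Real
open Filter Topology

section

variable {ι : Type} {K : ι → Type} [∀ i, AddCommGroup (K i)]
  (L : ∀ i, AddSubgroup (K i)) (b : ∀ i, K i →+ K i →+ Additive Circle)
  [∀ i, TopologicalSpace (K i)] [∀ i, DiscreteTopology (K i)]

lemma B_continuous (hiso : ∀ i, ∀ x ∈ L i, ∀ y ∈ L i, b i x y = 0) :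
    Continuous (fun p : X L × X L => B L b hiso p.1 p.2) := by
  rw [continuous_iff_continuousAt]
  rintro ⟨x0, y0⟩
  have hfin : {i | ¬ (x0 i ∈ L i ∧ y0 i ∈ L i)}.Finite :=
    Filter.eventually_cofinite.1 (x0.eventually.and y0.eventually)
  set S := {i | ¬ (x0 i ∈ L i ∧ y0 i ∈ L i)} with hS
  have hW := W_mem_nhds L S hfin
  have hx : ∀ z0 : X L, ∀ᶠ z in 𝓝 z0, z - z0 ∈ {x : X L | (∀ i, x i ∈ L i) ∧ ∀ i ∈ S, x i = 0} := by
    intro z0
    have hc : Continuous (fun z : X L => z - z0) := continuous_id.sub continuous_const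
    have := hc.continuousAt (x := z0)
    apply this
    change {x : X L | (∀ i, x i ∈ L i) ∧ ∀ i ∈ S, x i = 0} ∈ 𝓝 (z0 - z0)
    rw [sub_self]
    exact hW
  have hev : ∀ᶠ p in 𝓝 (x0, y0), B L b hiso x0 y0 = B L b hiso p.1 p.2 := by
    rw [nhds_prod_eq]
    filter_upwards [(hx x0).prod_mk (hx y0)] with p hp
    obtain ⟨⟨h1, h2⟩, ⟨h3, h4⟩⟩ := hp
    have e1 : p.1 = x0 + (p.1 - x0) := by abel
    have e2 : p.2 = y0 + (p.2 - y0) := by abel
    set u := p.1 - x0
    set v := p.2 - y0
    have e3 : B L b hiso (x0 + u) (y0 + v) = B L b hiso x0 y0 + B L b hiso u y0 +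
        (B L b hiso x0 v + B L b hiso u v) := by
      rw [map_add, map_add, AddMonoidHom.add_apply, AddMonoidHom.add_apply]
    rw [e1, e2, e3]
    have z1 : B L b hiso x0 v = 0 := by
      apply B_eq_zero
      intro i
      by_cases hi : i ∈ S
      · rw [h4 i hi, map_zero]
      · have : x0 i ∈ L i := by
          by_contra h
          exact hi (fun h' => h h'.1)
        exact hiso i _ this _ (h3 i)
    have z2 : B L b hiso u y0 = 0 := by
      apply B_eq_zero
      intro i
      by_cases hi : i ∈ S
      · rw [h2 i hi, map_zero]; rfl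
      · have : y0 i ∈ L i := by
          by_contra h
          exact hi (fun h' => h h'.2)
        exact hiso i _ (h1 i) _ this
    have z3 : B L b hiso u v = 0 := by
      apply B_eq_zero
      intro i
      exact hiso i _ (h1 i) _ (h3 i)
    rw [z1, z2, z3]
    simp
  exact tendsto_const_nhds.congr' hev

/-- The character attached to a point. -/
noncomputable def Mfun (hiso : ∀ i, ∀ x ∈ L i, ∀ y ∈ L i, b i x y = 0) :
    Multiplicative (X L) →* PontryaginDual (Multiplicative (X L)) where
  toFun x :=
    { toFun := fun y => (B L b hiso x.toAdd y.toAdd).toMul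
      map_one' := by simp
      map_mul' := by intro y z; simp
      continuous_toFun := by
        have h := (B_continuous L b hiso).comp
          (Continuous.prodMk (continuous_const (y := x.toAdd)) (continuous_toAdd (X := X L)))
        exact continuous_toMul.comp h }
  map_one' := by
    ext y
    change ((B L b hiso 0 y.toAdd).toMul : ℂ) = 1
    simp
  map_mul' := by
    intro x y
    ext z
    change ((B L b hiso (x.toAdd + y.toAdd) z.toAdd).toMul : ℂ) = _
    rw [map_add, AddMonoidHom.add_apply]
    rfl

lemma Mfun_apply (hiso : ∀ i, ∀ x ∈ L i, ∀ y ∈ L i, b i x y = 0) (x y : Multiplicative (X L)) :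
    Mfun L b hiso x y = (B L b hiso x.toAdd y.toAdd).toMul := rfl

lemma Mfun_continuous (hiso : ∀ i, ∀ x ∈ L i, ∀ y ∈ L i, b i x y = 0) :
    Continuous (Mfun L b hiso) := by
  apply ContinuousMonoidHom.continuous_of_continuous_uncurry
  have h := (B_continuous L b hiso).comp
    (Continuous.prodMk ((continuous_toAdd (X := X L)).comp continuous_fst)
      ((continuous_toAdd (X := X L)).comp continuous_snd))
  exact continuous_toMul.comp h

lemma Mfun_injective (hiso : ∀ i, ∀ x ∈ L i, ∀ y ∈ L i, b i x y = 0)
    (hnd : ∀ i x, (∀ y, b i x y = 0) → x = 0) :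
    Function.Injective (Mfun L b hiso) := by
  classical
  rw [injective_iff_map_eq_one]
  intro x hx
  have : x.toAdd = 0 := by
    ext i
    apply hnd
    intro u
    rw [← B_single L b hiso x.toAdd i u]
    have h1 : Mfun L b hiso x (Multiplicative.ofAdd (RestrictedProduct.single L i u)) = 1 := by
      rw [hx]; rfl
    rw [Mfun_apply] at h1
    exact h1
  exact this

/-- A character small on multiples is trivial. -/
lemma char_trivial {A : Type*} [AddMonoid A] [TopologicalSpace A]
    (χ : PontryaginDual (Multiplicative A)) (a : A)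
    (h : ∀ n : ℕ, χ (Multiplicative.ofAdd (n • a)) ∈ Circle.centeredArc (π / 2)) :
    χ (Multiplicative.ofAdd a) = 1 := by
  refine Circle.eq_one_of_forall_pow_mem_centeredArc_pi_div_two fun n hn ↦ ?_
  rw [← map_pow, ← ofAdd_nsmul]
  exact h n

lemma Mfun_surjective (hiso : ∀ i, ∀ x ∈ L i, ∀ y ∈ L i, b i x y = 0)
    (hsurj : ∀ i (χ : K i →+ Additive Circle), ∃ x, ∀ y, χ y = b i x y)
    (hlag : ∀ i x, (∀ y ∈ L i, b i x y = 0) → x ∈ L i) :
    Function.Surjective (Mfun L b hiso) := by
  classical
  intro χ
  let χa : X L →+ Additive Circle := AddMonoidHom.mk'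
    (fun x => Additive.ofMul (χ (Multiplicative.ofAdd x))) (fun x y => by
      rw [ofAdd_add, map_mul, ofMul_mul])
  have hχa : ∀ x, χa x = Additive.ofMul (χ (Multiplicative.ofAdd x)) := fun x => rfl
  have hloc : ∀ i, ∃ x, ∀ y, (χa.comp (sgl L i)) y = b i x y := fun i => hsurj i _
  choose x0 hx0 using hloc
  -- neighbourhood on which χ is small
  have hU : {x : X L | χ (Multiplicative.ofAdd x) ∈ Circle.centeredArc (π / 2)} ∈ 𝓝 (0 : X L) := by
    have hc : Continuous (fun x : X L => χ (Multiplicative.ofAdd x)) :=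
      (map_continuous χ).comp continuous_ofAdd
    have h1 : IsOpen {x : X L | χ (Multiplicative.ofAdd x) ∈ Circle.centeredArc (π / 2)} :=
      (Circle.isOpen_centeredArc (π / 2)).preimage hc
    apply h1.mem_nhds
    change χ (Multiplicative.ofAdd 0) ∈ Circle.centeredArc (π / 2)
    rw [ofAdd_zero, map_one, Circle.mem_centeredArc (by linarith [Real.pi_pos])]
    simp [Real.pi_pos]
  obtain ⟨S, hS, hsub⟩ := exists_W_subset L _ hU
  have htriv : ∀ x : X L, (∀ i, x i ∈ L i) → (∀ i ∈ S, x i = 0) → χa x = 0 := by
    intro x h1 h2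
    rw [hχa]
    apply char_trivial
    intro n
    apply hsub
    refine ⟨fun i => ?_, fun i hi => ?_⟩
    · rw [RestrictedProduct.nsmul_apply]
      exact (L i).nsmul_mem (h1 i) n
    · rw [RestrictedProduct.nsmul_apply, h2 i hi, smul_zero]
  have hx0L : ∀ i, i ∉ S → x0 i ∈ L i := by
    intro i hi
    apply hlag
    intro y hy
    rw [← hx0 i y]
    apply htriv
    · exact sgl_mem_L L i y hy
    · intro j hj
      have hne : j ≠ i := by
        rintro rfl
        exact hi hj
      exact sgl_ne L hne y
  have hev : ∀ᶠ i in cofinite, x0 i ∈ (L i : Set (K i)) := by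
    rw [Filter.eventually_cofinite]
    refine hS.subset ?_
    intro i hi
    by_contra h
    exact hi (hx0L i h)
  let x : X L := ⟨x0, hev⟩
  refine ⟨Multiplicative.ofAdd x, ?_⟩
  have hD : ∀ T : Finset ι, ∀ y : X L, (∀ i, i ∉ T → (y i ∈ L i ∧ (i ∈ S → y i = 0))) →
      χa y = B L b hiso x y := by
    intro T
    induction T using Finset.induction_on with
    | empty =>
      intro y hy
      rw [htriv y (fun i => (hy i (by simp)).1) (fun i hi => (hy i (by simp)).2 hi)]
      symm
      apply B_eq_zero
      intro i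
      by_cases hi : i ∈ S
      · rw [(hy i (by simp)).2 hi, map_zero]
      · exact hiso i _ (hx0L i hi) _ (hy i (by simp)).1
    | insert a T ha ih =>
      intro y hy
      have e : y = (y - sgl L a (y a)) + sgl L a (y a) := by abel
      have h1 : χa (y - sgl L a (y a)) = B L b hiso x (y - sgl L a (y a)) := by
        apply ih
        intro i hi
        rw [RestrictedProduct.sub_apply]
        by_cases hia : i = a
        · subst hia
          rw [sgl_same, sub_self]
          exact ⟨(L i).zero_mem, fun _ => rfl⟩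
        · rw [sgl_ne L hia, sub_zero]
          exact hy i (by simp [hia, hi])
      rw [e, map_add, map_add, h1]
      congr 1
      have h2 := hx0 a (y a)
      rw [AddMonoidHom.comp_apply] at h2
      rw [h2]
      exact (B_single L b hiso x a (y a)).symm
  ext y
  rw [Mfun_apply]
  have hfin : (S ∪ {i | ¬ y.toAdd i ∈ L i}).Finite :=
    hS.union (Filter.eventually_cofinite.1 y.toAdd.eventually)
  have := hD hfin.toFinset y.toAdd (fun i hi => by
    simp only [Set.Finite.mem_toFinset, Set.mem_union, Set.mem_ofPred_eq, not_or, not_not] at hi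
    exact ⟨hi.2, fun h => absurd h hi.1⟩)
  change ((B L b hiso x y.toAdd).toMul : ℂ) = _
  rw [← this]
  rfl

/-- The Mumford map is a topological isomorphism. -/
lemma Minv_continuous [∀ i, Finite (K i)] (hiso : ∀ i, ∀ x ∈ L i, ∀ y ∈ L i, b i x y = 0)
    (hnd : ∀ i x, (∀ y, b i x y = 0) → x = 0)
    (hlag : ∀ i x, (∀ y ∈ L i, b i x y = 0) → x ∈ L i)
    (N : PontryaginDual (Multiplicative (X L)) →* Multiplicative (X L))
    (hN : ∀ χ, Mfun L b hiso (N χ) = χ) : Continuous N := by
  classical
  apply continuous_of_continuousAt_one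
  rw [ContinuousAt, map_one]
  intro U hU
  have hU' : (Multiplicative.ofAdd ⁻¹' U : Set (X L)) ∈ 𝓝 (0 : X L) := by
    exact continuous_ofAdd.continuousAt (x := (0 : X L)) hU
  obtain ⟨S, hS, hsub⟩ := exists_W_subset L _ hU'
  -- the compact set
  let T1 : Set (X L) := Set.range (RestrictedProduct.structureMap K
    (fun i => (L i : Set (K i))) cofinite)
  let T2 : ι → Set (X L) := fun i => Set.range (sgl L i)
  have hT1 : IsCompact T1 := by
    have : ∀ i, CompactSpace ((L i : Set (K i))) := fun i => inferInstance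
    exact isCompact_range RestrictedProduct.isEmbedding_structureMap.continuous
  have hT : IsCompact (Multiplicative.toAdd ⁻¹' (T1 ∪ ⋃ i ∈ S, T2 i) :
      Set (Multiplicative (X L))) := by
    have h1 : IsCompact (T1 ∪ ⋃ i ∈ S, T2 i) := by
      apply hT1.union
      apply hS.isCompact_biUnion
      intro i _
      exact (Set.finite_range _).isCompact
    exact h1
  have hV : {χ : PontryaginDual (Multiplicative (X L)) |
      Set.MapsTo χ (Multiplicative.toAdd ⁻¹' (T1 ∪ ⋃ i ∈ S, T2 i)) (Circle.centeredArc (π / 2))} ∈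
      𝓝 (1 : PontryaginDual (Multiplicative (X L))) := by
    have hVopen : IsOpen {χ : PontryaginDual (Multiplicative (X L)) |
      Set.MapsTo χ (Multiplicative.toAdd ⁻¹' (T1 ∪ ⋃ i ∈ S, T2 i))
        (Circle.centeredArc (π / 2))} :=
      isOpen_induced (ContinuousMap.isOpen_setOfPred_mapsTo hT
        (Circle.isOpen_centeredArc (π / 2)))
    apply hVopen.mem_nhds
    intro y _
    rw [PontryaginDual.one_apply, Circle.mem_centeredArc (by linarith [Real.pi_pos])]
    simp [Real.pi_pos]
  rw [Filter.mem_map]
  filter_upwards [hV] with χ hχ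
  apply hsub
  have hχN : ∀ y, χ y = (B L b hiso (N χ).toAdd y.toAdd).toMul := by
    intro y
    conv_lhs => rw [← hN χ]
    rfl
  refine ⟨fun i => ?_, fun i hi => ?_⟩
  · apply hlag
    intro u hu
    have h1 : χ (Multiplicative.ofAdd (sgl L i u)) = 1 := by
      apply char_trivial
      intro n
      apply hχ
      left
      rw [← map_nsmul]
      have hu' : n • u ∈ L i := (L i).nsmul_mem hu n
      obtain ⟨x', hx'⟩ := RestrictedProduct.exists_structureMap_eq_of_forall K
        (fun i => (L i : Set (K i))) (𝓕 := cofinite) (x := sgl L i (n • u))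
        (fun j => sgl_mem_L L i _ hu' j)
      exact ⟨x', hx'⟩
    rw [hχN] at h1
    have h2 := B_single L b hiso (N χ).toAdd i u
    exact h2.symm.trans h1
  · apply hnd
    intro u
    have h1 : χ (Multiplicative.ofAdd (sgl L i u)) = 1 := by
      apply char_trivial
      intro n
      apply hχ
      right
      rw [← map_nsmul]
      exact Set.mem_biUnion hi ⟨_, rfl⟩
    rw [hχN] at h1
    have h2 := B_single L b hiso (N χ).toAdd i u
    exact h2.symm.trans h1

end

end Pool.Agent.D0H76.Mumford
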