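import Mathlib

/-!
The group `T × K` attached to a bi-additive form `B : K × K → T`, and its basic
properties.
-/

namespace Pool.Agent.D0H76.Mumford

open Filter Topology
open scoped commutatorElement

/-- The Heisenberg type group of a bi-additive form. -/
@[ext] structure HG {K T : Type} [AddCommGroup K] [AddCommGroup T] (B : K →+ K →+ T) : Type where
  /-- central coordinate -/
  t : T
  /-- coordinate in `K` -/
  k : K

namespace HG

section alg

variable {K T : Type} [AddCommGroup K] [AddCommGroup T] {B : K →+ K →+ T}

instance : Mul (HG B) := ⟨fun g h => ⟨g.t + h.t + B g.k h.k, g.k + h.k⟩⟩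
instance : One (HG B) := ⟨⟨0, 0⟩⟩
instance : Inv (HG B) := ⟨fun g => ⟨-g.t + B g.k g.k, -g.k⟩⟩

@[simp] lemma mul_t (g h : HG B) : (g * h).t = g.t + h.t + B g.k h.k := rfl
@[simp] lemma mul_k (g h : HG B) : (g * h).k = g.k + h.k := rfl
@[simp] lemma one_t : (1 : HG B).t = 0 := rfl
@[simp] lemma one_k : (1 : HG B).k = 0 := rfl
@[simp] lemma inv_t (g : HG B) : (g⁻¹).t = -g.t + B g.k g.k := rfl
@[simp] lemma inv_k (g : HG B) : (g⁻¹).k = -g.k := rfl

instance : Group (HG B) where
  mul_assoc g h k := by
    ext
    · simp only [mul_t, mul_k, map_add, AddMonoidHom.add_apply]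
      abel
    · simp only [mul_k, add_assoc]
  one_mul g := by
    ext <;> simp
  mul_one g := by
    ext <;> simp
  inv_mul_cancel g := by
    ext <;> simp

/-- The projection to `K`. -/
def proj : HG B →* Multiplicative K where
  toFun g := Multiplicative.ofAdd g.k
  map_one' := rfl
  map_mul' _ _ := rfl

lemma comm_t (g h : HG B) : (g * h * g⁻¹ * h⁻¹).t = B g.k h.k - B h.k g.k := by
  simp only [mul_t, mul_k, inv_t, inv_k, map_add, map_neg, AddMonoidHom.add_apply,
    AddMonoidHom.neg_apply]
  abel

lemma comm_k (g h : HG B) : (g * h * g⁻¹ * h⁻¹).k = 0 := by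
  simp

lemma mem_center_iff (hnd : ∀ x, (∀ y, B x y - B y x = 0) → x = 0) (g : HG B) :
    g ∈ Subgroup.center (HG B) ↔ g.k = 0 := by
  rw [Subgroup.mem_center_iff]
  constructor
  · intro h
    apply hnd
    intro y
    have h1 := congrArg HG.t (h ⟨0, y⟩)
    simp only [mul_t, zero_add, add_zero] at h1
    rw [sub_eq_zero]
    exact (add_left_cancel h1).symm
  · intro h k
    ext
    · simp [h, add_comm]
    · simp [h]

end alg

section top

variable {K T : Type} [AddCommGroup K] [AddCommGroup T] {B : K →+ K →+ T}
  [TopologicalSpace K] [TopologicalSpace T]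

/-- The underlying pair. -/
def toPair : HG B ≃ T × K where
  toFun g := (g.t, g.k)
  invFun p := ⟨p.1, p.2⟩
  left_inv _ := rfl
  right_inv _ := rfl

instance : TopologicalSpace (HG B) := TopologicalSpace.induced toPair inferInstance

/-- The underlying pair, as a homeomorphism. -/
def homeo : HG B ≃ₜ T × K := toPair.toHomeomorphOfIsInducing ⟨rfl⟩

instance [T2Space K] [T2Space T] : T2Space (HG B) := (homeo (B := B)).symm.t2Space

instance [LocallyCompactSpace K] [LocallyCompactSpace T] : LocallyCompactSpace (HG B) :=
  (homeo (B := B)).isClosedEmbedding.locallyCompactSpace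

lemma continuous_t : Continuous (fun g : HG B => g.t) :=
  continuous_fst.comp (homeo (B := B)).continuous

lemma continuous_k : Continuous (fun g : HG B => g.k) :=
  continuous_snd.comp (homeo (B := B)).continuous

lemma continuous_mk {X : Type*} [TopologicalSpace X] {f : X → T} {g : X → K} (hf : Continuous f)
    (hg : Continuous g) : Continuous (fun x => (⟨f x, g x⟩ : HG B)) :=
  (homeo (B := B)).symm.continuous.comp (hf.prodMk hg)

lemma isTopologicalGroup [IsTopologicalAddGroup K] [IsTopologicalAddGroup T]
    (hB : Continuous (fun p : K × K => B p.1 p.2)) : IsTopologicalGroup (HG B) where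
  continuous_mul := by
    apply continuous_mk
    · apply Continuous.add
      · exact (continuous_t.comp continuous_fst).add (continuous_t.comp continuous_snd)
      · exact hB.comp ((continuous_k.comp continuous_fst).prodMk
          (continuous_k.comp continuous_snd))
    · exact (continuous_k.comp continuous_fst).add (continuous_k.comp continuous_snd)
  continuous_inv := by
    apply continuous_mk
    · apply Continuous.add
      · exact continuous_t.neg
      · exact hB.comp (continuous_k.prodMk continuous_k)
    · exact continuous_k.neg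

end top

end HG

end Pool.Agent.D0H76.Mumford
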