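import Mathlib

/-!
The finite group `K_p = (ℤ/p^8)² × (ℤ/p^10)² × (ℤ/p^4)²`, its symplectic form and the
Lagrangian subgroup `L_p` which is not compatible with any Lagrangian splitting of `K_p`.
-/

namespace Pool.Agent.D0H76.Mumford

lemma dd {a b c : ℤ} (h : a ∣ b) (e : b = c) : a ∣ c := e ▸ h

lemma ddn {a b c : ℤ} (h : a ∣ b) (e : -b = c) : a ∣ c := e ▸ (dvd_neg.2 h)

/-- The finite group `K_p`. -/
def Kp (p : ℕ) : Type :=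
  (ZMod (p ^ 8) × ZMod (p ^ 8)) × (ZMod (p ^ 10) × ZMod (p ^ 10)) × (ZMod (p ^ 4) × ZMod (p ^ 4))

instance (p : ℕ) : AddCommGroup (Kp p) :=
  inferInstanceAs (AddCommGroup ((ZMod (p ^ 8) × ZMod (p ^ 8)) ×
    (ZMod (p ^ 10) × ZMod (p ^ 10)) × (ZMod (p ^ 4) × ZMod (p ^ 4))))

instance (p : ℕ) [Fact p.Prime] : Finite (Kp p) := by
  have : NeZero (p ^ 8) := ⟨pow_ne_zero _ (Fact.out : p.Prime).ne_zero⟩
  have : NeZero (p ^ 10) := ⟨pow_ne_zero _ (Fact.out : p.Prime).ne_zero⟩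
  have : NeZero (p ^ 4) := ⟨pow_ne_zero _ (Fact.out : p.Prime).ne_zero⟩
  exact inferInstanceAs (Finite ((ZMod (p ^ 8) × ZMod (p ^ 8)) ×
    (ZMod (p ^ 10) × ZMod (p ^ 10)) × (ZMod (p ^ 4) × ZMod (p ^ 4))))

/-- The element of `K_p` with given integral coordinates. -/
def mkp (p : ℕ) (a1 b1 a2 b2 a3 b3 : ℤ) : Kp p :=
  (((a1 : ZMod (p ^ 8)), (b1 : ZMod (p ^ 8))), ((a2 : ZMod (p ^ 10)), (b2 : ZMod (p ^ 10))),
    ((a3 : ZMod (p ^ 4)), (b3 : ZMod (p ^ 4))))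

lemma mkp_surj (p : ℕ) (x : Kp p) : ∃ a1 b1 a2 b2 a3 b3 : ℤ, x = mkp p a1 b1 a2 b2 a3 b3 := by
  obtain ⟨⟨a1, b1⟩, ⟨a2, b2⟩, ⟨a3, b3⟩⟩ := x
  obtain ⟨a1, rfl⟩ := ZMod.intCast_surjective a1
  obtain ⟨b1, rfl⟩ := ZMod.intCast_surjective b1
  obtain ⟨a2, rfl⟩ := ZMod.intCast_surjective a2
  obtain ⟨b2, rfl⟩ := ZMod.intCast_surjective b2
  obtain ⟨a3, rfl⟩ := ZMod.intCast_surjective a3
  obtain ⟨b3, rfl⟩ := ZMod.intCast_surjective b3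
  exact ⟨a1, b1, a2, b2, a3, b3, rfl⟩

lemma mkp_add (p : ℕ) (a1 b1 a2 b2 a3 b3 a1' b1' a2' b2' a3' b3' : ℤ) :
    mkp p a1 b1 a2 b2 a3 b3 + mkp p a1' b1' a2' b2' a3' b3' =
      mkp p (a1 + a1') (b1 + b1') (a2 + a2') (b2 + b2') (a3 + a3') (b3 + b3') := by
  simp only [mkp, Int.cast_add]
  rfl

lemma mkp_zsmul (p : ℕ) (n a1 b1 a2 b2 a3 b3 : ℤ) :
    n • mkp p a1 b1 a2 b2 a3 b3 =
      mkp p (n * a1) (n * b1) (n * a2) (n * b2) (n * a3) (n * b3) := by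
  simp only [mkp, Int.cast_mul, ← zsmul_eq_mul]
  rfl

lemma mkp_sub (p : ℕ) (a1 b1 a2 b2 a3 b3 a1' b1' a2' b2' a3' b3' : ℤ) :
    mkp p a1 b1 a2 b2 a3 b3 - mkp p a1' b1' a2' b2' a3' b3' =
      mkp p (a1 - a1') (b1 - b1') (a2 - a2') (b2 - b2') (a3 - a3') (b3 - b3') := by
  simp only [mkp, Int.cast_sub]
  rfl

lemma mkp_eq_iff (p : ℕ) (a1 b1 a2 b2 a3 b3 a1' b1' a2' b2' a3' b3' : ℤ) :
    mkp p a1 b1 a2 b2 a3 b3 = mkp p a1' b1' a2' b2' a3' b3' ↔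
      ((p : ℤ) ^ 8 ∣ a1' - a1 ∧ (p : ℤ) ^ 8 ∣ b1' - b1) ∧
      ((p : ℤ) ^ 10 ∣ a2' - a2 ∧ (p : ℤ) ^ 10 ∣ b2' - b2) ∧
      ((p : ℤ) ^ 4 ∣ a3' - a3 ∧ (p : ℤ) ^ 4 ∣ b3' - b3) := by
  have key : ∀ (n : ℕ) (a b : ℤ), ((a : ZMod (p ^ n)) = b ↔ (p : ℤ) ^ n ∣ b - a) := by
    intro n a b
    rw [ZMod.intCast_eq_intCast_iff_dvd_sub]
    push_cast
    rfl
  rw [← key, ← key, ← key, ← key, ← key, ← key]
  constructor
  · intro h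
    exact ⟨⟨congrArg (fun x : Kp p => x.1.1) h, congrArg (fun x : Kp p => x.1.2) h⟩,
      ⟨congrArg (fun x : Kp p => x.2.1.1) h, congrArg (fun x : Kp p => x.2.1.2) h⟩,
      ⟨congrArg (fun x : Kp p => x.2.2.1) h, congrArg (fun x : Kp p => x.2.2.2) h⟩⟩
  · rintro ⟨⟨h1, h2⟩, ⟨h3, h4⟩, ⟨h5, h6⟩⟩
    exact Prod.ext (Prod.ext h1 h2) (Prod.ext (Prod.ext h3 h4) (Prod.ext h5 h6))

/-- multiplication by `p^2` as a homomorphism `ℤ/p^8 → ℤ/p^10`. -/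
def i8 (p : ℕ) : ZMod (p ^ 8) →+ ZMod (p ^ 10) :=
  ZMod.lift (p ^ 8) ⟨(AddMonoidHom.mulLeft ((p : ZMod (p ^ 10)) ^ 2)).comp
    (Int.castAddHom (ZMod (p ^ 10))), by
      have : ((p ^ 10 : ℕ) : ZMod (p ^ 10)) = 0 := ZMod.natCast_self _
      push_cast at this
      simp only [AddMonoidHom.comp_apply, AddMonoidHom.coe_mulLeft, Int.coe_castAddHom]
      push_cast
      rw [← pow_add]
      exact this⟩

lemma i8_intCast (p : ℕ) (a : ℤ) : i8 p (a : ZMod (p ^ 8)) = (((p : ℤ) ^ 2 * a : ℤ) : ZMod (p ^ 10)) := by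
  unfold i8
  rw [ZMod.lift_coe]
  simp

/-- multiplication by `p^6` as a homomorphism `ℤ/p^4 → ℤ/p^10`. -/
def i4 (p : ℕ) : ZMod (p ^ 4) →+ ZMod (p ^ 10) :=
  ZMod.lift (p ^ 4) ⟨(AddMonoidHom.mulLeft ((p : ZMod (p ^ 10)) ^ 6)).comp
    (Int.castAddHom (ZMod (p ^ 10))), by
      have : ((p ^ 10 : ℕ) : ZMod (p ^ 10)) = 0 := ZMod.natCast_self _
      push_cast at this
      simp only [AddMonoidHom.comp_apply, AddMonoidHom.coe_mulLeft, Int.coe_castAddHom]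
      push_cast
      rw [← pow_add]
      exact this⟩

lemma i4_intCast (p : ℕ) (a : ℤ) : i4 p (a : ZMod (p ^ 4)) = (((p : ℤ) ^ 6 * a : ℤ) : ZMod (p ^ 10)) := by
  unfold i4
  rw [ZMod.lift_coe]
  simp

/-- The function underlying the symplectic form. -/
def qfun (p : ℕ) (x y : Kp p) : ZMod (p ^ 10) :=
  i8 p (x.1.1 * y.1.2 - x.1.2 * y.1.1) + (x.2.1.1 * y.2.1.2 - x.2.1.2 * y.2.1.1) +
    i4 p (x.2.2.1 * y.2.2.2 - x.2.2.2 * y.2.2.1)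

lemma qfun_mkp (p : ℕ) (a1 b1 a2 b2 a3 b3 a1' b1' a2' b2' a3' b3' : ℤ) :
    qfun p (mkp p a1 b1 a2 b2 a3 b3) (mkp p a1' b1' a2' b2' a3' b3') =
      (((p : ℤ) ^ 2 * (a1 * b1' - b1 * a1') + (a2 * b2' - b2 * a2') +
        (p : ℤ) ^ 6 * (a3 * b3' - b3 * a3') : ℤ) : ZMod (p ^ 10)) := by
  unfold qfun mkp
  simp only
  rw [← Int.cast_mul, ← Int.cast_mul, ← Int.cast_sub, i8_intCast]
  rw [← Int.cast_mul, ← Int.cast_mul, ← Int.cast_sub]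
  rw [← Int.cast_mul, ← Int.cast_mul, ← Int.cast_sub, i4_intCast]
  push_cast
  ring

/-- The symplectic form on `K_p` with values in `ℤ/p^10`. -/
def q (p : ℕ) : Kp p →+ Kp p →+ ZMod (p ^ 10) :=
  AddMonoidHom.mk' (fun x => AddMonoidHom.mk' (fun y => qfun p x y) (by
    intro y z
    obtain ⟨a1, b1, a2, b2, a3, b3, rfl⟩ := mkp_surj p x
    obtain ⟨c1, d1, c2, d2, c3, d3, rfl⟩ := mkp_surj p y
    obtain ⟨e1, f1, e2, f2, e3, f3, rfl⟩ := mkp_surj p z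
    rw [mkp_add, qfun_mkp, qfun_mkp, qfun_mkp, ← Int.cast_add]
    congr 1
    ring)) (by
    intro x y
    ext z
    simp only [AddMonoidHom.mk'_apply, AddMonoidHom.add_apply]
    obtain ⟨a1, b1, a2, b2, a3, b3, rfl⟩ := mkp_surj p x
    obtain ⟨c1, d1, c2, d2, c3, d3, rfl⟩ := mkp_surj p y
    obtain ⟨e1, f1, e2, f2, e3, f3, rfl⟩ := mkp_surj p z
    rw [mkp_add, qfun_mkp, qfun_mkp, qfun_mkp, ← Int.cast_add]
    congr 1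
    ring)

lemma q_mkp (p : ℕ) (a1 b1 a2 b2 a3 b3 a1' b1' a2' b2' a3' b3' : ℤ) :
    q p (mkp p a1 b1 a2 b2 a3 b3) (mkp p a1' b1' a2' b2' a3' b3') =
      (((p : ℤ) ^ 2 * (a1 * b1' - b1 * a1') + (a2 * b2' - b2 * a2') +
        (p : ℤ) ^ 6 * (a3 * b3' - b3 * a3') : ℤ) : ZMod (p ^ 10)) := by
  exact qfun_mkp p _ _ _ _ _ _ _ _ _ _ _ _

lemma q_mkp_eq_zero_iff (p : ℕ) (a1 b1 a2 b2 a3 b3 a1' b1' a2' b2' a3' b3' : ℤ) :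
    q p (mkp p a1 b1 a2 b2 a3 b3) (mkp p a1' b1' a2' b2' a3' b3') = 0 ↔
      (p : ℤ) ^ 10 ∣ (p : ℤ) ^ 2 * (a1 * b1' - b1 * a1') + (a2 * b2' - b2 * a2') +
        (p : ℤ) ^ 6 * (a3 * b3' - b3 * a3') := by
  rw [q_mkp, ZMod.intCast_zmod_eq_zero_iff_dvd]
  push_cast
  rfl

lemma q_self (p : ℕ) (x : Kp p) : q p x x = 0 := by
  obtain ⟨a1, b1, a2, b2, a3, b3, rfl⟩ := mkp_surj p x
  rw [q_mkp_eq_zero_iff]
  have : (p : ℤ) ^ 2 * (a1 * b1 - b1 * a1) + (a2 * b2 - b2 * a2) +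
        (p : ℤ) ^ 6 * (a3 * b3 - b3 * a3) = 0 := by ring
  rw [this]
  exact dvd_zero _

lemma nsmul_eq_zero (p : ℕ) (x : Kp p) : (p ^ 10) • x = 0 := by
  obtain ⟨a1, b1, a2, b2, a3, b3, rfl⟩ := mkp_surj p x
  rw [← natCast_zsmul, mkp_zsmul]
  have h0 : (0 : Kp p) = mkp p 0 0 0 0 0 0 := by
    simp [mkp]; rfl
  rw [h0, mkp_eq_iff]
  push_cast
  simp only [zero_sub, dvd_neg]
  refine ⟨⟨?_, ?_⟩, ⟨?_, ?_⟩, ⟨?_, ?_⟩⟩ <;>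
    exact Dvd.dvd.mul_right (pow_dvd_pow _ (by norm_num)) _

lemma mkp_zero (p : ℕ) : mkp p 0 0 0 0 0 0 = 0 := by
  simp [mkp]; rfl

lemma q_nondeg (p : ℕ) [Fact p.Prime] (x : Kp p) (h : ∀ y, q p x y = 0) : x = 0 := by
  have hp : (p : ℤ) ≠ 0 := by exact_mod_cast (Fact.out : p.Prime).ne_zero
  obtain ⟨a1, b1, a2, b2, a3, b3, rfl⟩ := mkp_surj p x
  have h1 := h (mkp p 0 1 0 0 0 0)
  have h2 := h (mkp p 1 0 0 0 0 0)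
  have h3 := h (mkp p 0 0 0 1 0 0)
  have h4 := h (mkp p 0 0 1 0 0 0)
  have h5 := h (mkp p 0 0 0 0 0 1)
  have h6 := h (mkp p 0 0 0 0 1 0)
  rw [q_mkp_eq_zero_iff] at h1 h2 h3 h4 h5 h6
  rw [← mkp_zero, mkp_eq_iff]
  have c2 : ∀ a : ℤ, (p : ℤ) ^ 10 ∣ (p : ℤ) ^ 2 * a → (p : ℤ) ^ 8 ∣ a := by
    intro a ha
    have : (p : ℤ) ^ 10 = (p : ℤ) ^ 2 * (p : ℤ) ^ 8 := by ring
    rw [this] at ha
    exact (mul_dvd_mul_iff_left (pow_ne_zero 2 hp)).1 ha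
  have c6 : ∀ a : ℤ, (p : ℤ) ^ 10 ∣ (p : ℤ) ^ 6 * a → (p : ℤ) ^ 4 ∣ a := by
    intro a ha
    have : (p : ℤ) ^ 10 = (p : ℤ) ^ 6 * (p : ℤ) ^ 4 := by ring
    rw [this] at ha
    exact (mul_dvd_mul_iff_left (pow_ne_zero 6 hp)).1 ha
  refine ⟨⟨?_, ?_⟩, ⟨?_, ?_⟩, ⟨?_, ?_⟩⟩
  · apply c2; exact ddn h1 (by ring)
  · apply c2; exact dd h2 (by ring)
  · exact ddn h3 (by ring)
  · exact dd h4 (by ring)
  · apply c6; exact ddn h5 (by ring)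
  · apply c6; exact dd h6 (by ring)

/-- A general element of the Lagrangian `L_p`. -/
def lp (p : ℕ) (s t c1 c2 c3 c4 c5 c6 : ℤ) : Kp p :=
  mkp p (p * s + p ^ 4 * (c2 + c6) + p ^ 5 * c1) (p ^ 3 * t + p ^ 4 * c4 - p ^ 5 * c6 + p ^ 7 * c5)
    (p ^ 2 * s + p ^ 5 * c2) (-p ^ 4 * t - p ^ 5 * c4) (s + p * t + p ^ 2 * c3) (p ^ 2 * c6)

/-- The Lagrangian subgroup `L_p` of `K_p`. -/
def Lp (p : ℕ) : AddSubgroup (Kp p) where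
  carrier := {x | ∃ s t c1 c2 c3 c4 c5 c6 : ℤ, x = lp p s t c1 c2 c3 c4 c5 c6}
  zero_mem' := ⟨0, 0, 0, 0, 0, 0, 0, 0, by simp [lp, mkp_zero]⟩
  add_mem' := by
    rintro x y ⟨s, t, c1, c2, c3, c4, c5, c6, rfl⟩ ⟨s', t', c1', c2', c3', c4', c5', c6', rfl⟩
    refine ⟨s + s', t + t', c1 + c1', c2 + c2', c3 + c3', c4 + c4', c5 + c5', c6 + c6', ?_⟩
    unfold lp
    rw [mkp_add]
    congr 1 <;> ring
  neg_mem' := by
    rintro x ⟨s, t, c1, c2, c3, c4, c5, c6, rfl⟩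
    refine ⟨-s, -t, -c1, -c2, -c3, -c4, -c5, -c6, ?_⟩
    unfold lp
    rw [← neg_one_zsmul, mkp_zsmul]
    congr 1 <;> ring

lemma Lp_isotropic (p : ℕ) (x y : Kp p) (hx : x ∈ Lp p) (hy : y ∈ Lp p) : q p x y = 0 := by
  obtain ⟨s, t, c1, c2, c3, c4, c5, c6, rfl⟩ := hx
  obtain ⟨s', t', c1', c2', c3', c4', c5', c6', rfl⟩ := hy
  unfold lp
  rw [q_mkp_eq_zero_iff]
  refine ⟨(1) * c1 * c4' * p + (1) * c1 * c5' * p ^ 4 + (-1) * c1 * c6' * p ^ 2 + (1) * c1 * t' +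
    (-1) * c1' * c4 * p + (-1) * c1' * c5 * p ^ 4 + (1) * c1' * c6 * p ^ 2 + (-1) * c1' * t +
    (1) * c2 * c5' * p ^ 3 + (-1) * c2 * c6' * p + (-1) * c2' * c5 * p ^ 3 + (1) * c2' * c6 * p +
    (1) * c3 * c6' + (-1) * c3' * c6 + (-1) * c4 * c6' + (1) * c4' * c6 +
    (-1) * c5 * c6' * p ^ 3 + (-1) * c5 * s' + (1) * c5' * c6 * p ^ 3 + (1) * c5' * s, ?_⟩
  ring

lemma Lp_lagrangian (p : ℕ) [Fact p.Prime] (x : Kp p) (h : ∀ y ∈ Lp p, q p x y = 0) :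
    x ∈ Lp p := by
  have hp : (p : ℤ) ≠ 0 := by exact_mod_cast (Fact.out : p.Prime).ne_zero
  obtain ⟨a1, b1, a2, b2, a3, b3, rfl⟩ := mkp_surj p x
  have g := fun s t c1 c2 c3 c4 c5 c6 : ℤ =>
    h (lp p s t c1 c2 c3 c4 c5 c6) ⟨s, t, c1, c2, c3, c4, c5, c6, rfl⟩
  have hs := g 1 0 0 0 0 0 0 0
  have ht := g 0 1 0 0 0 0 0 0
  have h1 := g 0 0 1 0 0 0 0 0
  have h2 := g 0 0 0 1 0 0 0 0
  have h3 := g 0 0 0 0 1 0 0 0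
  have h4 := g 0 0 0 0 0 1 0 0
  have h5 := g 0 0 0 0 0 0 1 0
  have h6 := g 0 0 0 0 0 0 0 1
  clear g h
  unfold lp at hs ht h1 h2 h3 h4 h5 h6
  rw [q_mkp_eq_zero_iff] at hs ht h1 h2 h3 h4 h5 h6
  have canc : ∀ (m n : ℕ) (a : ℤ), (p : ℤ) ^ (m + n) ∣ (p : ℤ) ^ m * a → (p : ℤ) ^ n ∣ a := by
    intro m n a ha
    rw [pow_add] at ha
    exact (mul_dvd_mul_iff_left (pow_ne_zero m hp)).1 ha
  -- first round of divisibility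
  have d1 : (p : ℤ) ^ 3 ∣ b1 := by
    apply canc 7 3
    exact ddn h1 (by ring)
  have d5 : (p : ℤ) ^ 1 ∣ a1 := by
    apply canc 9 1
    exact dd h5 (by ring)
  have d3 : (p : ℤ) ^ 2 ∣ b3 := by
    apply canc 8 2
    exact ddn h3 (by ring)
  obtain ⟨t, rfl⟩ := d1
  obtain ⟨s, rfl⟩ := d5
  obtain ⟨c6, rfl⟩ := d3
  have d2 : (p : ℤ) ^ 5 ∣ -(p ^ 4 * t + b2) := by
    apply canc 5 5
    exact dd h2 (by ring)
  have d4 : (p : ℤ) ^ 5 ∣ -(p ^ 2 * s - a2) := by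
    apply canc 5 5
    exact ddn h4 (by ring)
  obtain ⟨c4, hc4⟩ := d2
  obtain ⟨c2, hc2⟩ := d4
  have d6 : (p : ℤ) ^ 2 ∣ a3 - s - p * t := by
    apply canc 8 2
    exact dd h6 (by ring)
  obtain ⟨c3, hc3⟩ := d6
  obtain rfl : b2 = -p ^ 4 * t - p ^ 5 * c4 := by linear_combination -hc4
  obtain rfl : a2 = p ^ 2 * s + p ^ 5 * c2 := by linear_combination hc2
  obtain rfl : a3 = s + p * t + p ^ 2 * c3 := by linear_combination hc3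
  have ds : (p : ℤ) ^ 3 ∣ c4 - p * c6 := by
    apply canc 7 3
    exact dd hs (by ring)
  have dt : (p : ℤ) ^ 1 ∣ c2 + c6 := by
    apply canc 9 1
    exact ddn ht (by ring)
  obtain ⟨m, hm⟩ := ds
  obtain ⟨n, hn⟩ := dt
  obtain rfl : c4 = p * c6 + p ^ 3 * m := by linear_combination hm
  obtain rfl : c2 = -c6 + p * n := by linear_combination hn
  refine ⟨s, t, -n, -c6 + p * n, c3, p * c6 + p ^ 3 * m, -m, c6, ?_⟩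
  unfold lp
  congr 1 <;> ring

/-- The key local obstruction: no projector `e` of `K_p` with isotropic image and kernel
preserves the Lagrangian `L_p`. -/
lemma Lp_nonsplit (p : ℕ) [hpf : Fact p.Prime] (e : Kp p →+ Kp p)
    (h1 : ∀ x y, q p (e x) (e y) = 0) (h2 : ∀ x y, q p (x - e x) (y - e y) = 0)
    (hL : ∀ x ∈ Lp p, e x ∈ Lp p) : False := by
  have hp : (p : ℤ) ≠ 0 := by exact_mod_cast (Fact.out : p.Prime).ne_zero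
  have canc : ∀ (m n : ℕ) (a : ℤ), (p : ℤ) ^ (m + n) ∣ (p : ℤ) ^ m * a → (p : ℤ) ^ n ∣ a := by
    intro m n a ha
    rw [pow_add] at ha
    exact (mul_dvd_mul_iff_left (pow_ne_zero m hp)).1 ha
  -- adjointness
  have adj : ∀ x y, q p (e x) y + q p x (e y) = q p x y := by
    intro x y
    have := h2 x y
    simp only [map_sub, AddMonoidHom.sub_apply, h1, sub_zero] at this
    rw [sub_sub, sub_eq_zero] at this
    rw [this]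
  -- idempotent
  have idem : ∀ x, e (e x) = e x := by
    intro x
    rw [← sub_eq_zero]
    apply q_nondeg
    intro y
    have := adj (e x) y
    rw [h1, add_zero] at this
    rw [map_sub, AddMonoidHom.sub_apply, this, sub_self]
  -- coordinates of the images of the basis
  obtain ⟨A1, A2, A3, A4, A5, A6, hA⟩ := mkp_surj p (e (mkp p 1 0 0 0 0 0))
  obtain ⟨B1, B2, B3, B4, B5, B6, hB⟩ := mkp_surj p (e (mkp p 0 1 0 0 0 0))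
  obtain ⟨C1, C2, C3, C4, C5, C6, hC⟩ := mkp_surj p (e (mkp p 0 0 1 0 0 0))
  obtain ⟨D1, D2, D3, D4, D5, D6, hD⟩ := mkp_surj p (e (mkp p 0 0 0 1 0 0))
  obtain ⟨E1, E2, E3, E4, E5, E6, hE⟩ := mkp_surj p (e (mkp p 0 0 0 0 1 0))
  obtain ⟨F1, F2, F3, F4, F5, F6, hF⟩ := mkp_surj p (e (mkp p 0 0 0 0 0 1))
  -- value of e on a general element
  have he : ∀ x1 x2 x3 x4 x5 x6 : ℤ, e (mkp p x1 x2 x3 x4 x5 x6) =
      mkp p (x1 * A1 + x2 * B1 + x3 * C1 + x4 * D1 + x5 * E1 + x6 * F1)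
        (x1 * A2 + x2 * B2 + x3 * C2 + x4 * D2 + x5 * E2 + x6 * F2)
        (x1 * A3 + x2 * B3 + x3 * C3 + x4 * D3 + x5 * E3 + x6 * F3)
        (x1 * A4 + x2 * B4 + x3 * C4 + x4 * D4 + x5 * E4 + x6 * F4)
        (x1 * A5 + x2 * B5 + x3 * C5 + x4 * D5 + x5 * E5 + x6 * F5)
        (x1 * A6 + x2 * B6 + x3 * C6 + x4 * D6 + x5 * E6 + x6 * F6) := by
    intro x1 x2 x3 x4 x5 x6
    have h0 : mkp p x1 x2 x3 x4 x5 x6 = x1 • mkp p 1 0 0 0 0 0 + x2 • mkp p 0 1 0 0 0 0 +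
        x3 • mkp p 0 0 1 0 0 0 + x4 • mkp p 0 0 0 1 0 0 + x5 • mkp p 0 0 0 0 1 0 +
        x6 • mkp p 0 0 0 0 0 1 := by
      simp only [mkp_zsmul, mkp_add]
      congr 1 <;> ring
    have h1 : e (x1 • mkp p 1 0 0 0 0 0 + x2 • mkp p 0 1 0 0 0 0 +
        x3 • mkp p 0 0 1 0 0 0 + x4 • mkp p 0 0 0 1 0 0 + x5 • mkp p 0 0 0 0 1 0 +
        x6 • mkp p 0 0 0 0 0 1) = x1 • e (mkp p 1 0 0 0 0 0) + x2 • e (mkp p 0 1 0 0 0 0) +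
        x3 • e (mkp p 0 0 1 0 0 0) + x4 • e (mkp p 0 0 0 1 0 0) + x5 • e (mkp p 0 0 0 0 1 0) +
        x6 • e (mkp p 0 0 0 0 0 1) := by
      rw [map_add, map_add, map_add, map_add, map_add, map_zsmul, map_zsmul, map_zsmul,
        map_zsmul, map_zsmul, map_zsmul]
    rw [h0, h1, hA, hB, hC, hD, hE, hF]
    simp only [mkp_zsmul, mkp_add]
  -- `e ε₃` is divisible
  have hE4 : e (mkp p 0 0 0 0 (p ^ 4) 0) = 0 := by
    have : mkp p 0 0 0 0 (p ^ 4) 0 = 0 := by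
      rw [← mkp_zero, mkp_eq_iff]
      simp
    rw [this, map_zero]
  rw [he, ← mkp_zero, mkp_eq_iff] at hE4
  have hE1 : (p : ℤ) ^ 4 ∣ E1 := by
    apply canc 4 4
    exact ddn hE4.1.1 (by ring)
  have hE2 : (p : ℤ) ^ 4 ∣ E2 := by
    apply canc 4 4
    exact ddn hE4.1.2 (by ring)
  have hE3 : (p : ℤ) ^ 6 ∣ E3 := by
    apply canc 4 6
    exact ddn hE4.2.1.1 (by ring)
  have hE4' : (p : ℤ) ^ 6 ∣ E4 := by
    apply canc 4 6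
    exact ddn hE4.2.1.2 (by ring)
  obtain ⟨c1, rfl⟩ := hE1
  obtain ⟨c2, rfl⟩ := hE2
  obtain ⟨c3, rfl⟩ := hE3
  obtain ⟨c4, rfl⟩ := hE4'
  clear hE4
  -- the vector `v`
  have hv := hL _ ⟨1, 0, 0, 0, 0, 0, 0, 0, rfl⟩
  obtain ⟨al, tv, v1, v2, v3, v4, v5, v6, hv⟩ := hv
  unfold lp at hv
  rw [he, mkp_eq_iff] at hv
  obtain ⟨⟨k1, hk1⟩, -⟩ := hv.1
  obtain ⟨⟨k2, hk2⟩, ⟨k3, hk3⟩⟩ := hv.2.2
  have e1 : (p : ℤ) ∣ A1 - al := by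
    have : (p : ℤ) * (A1 - al) = p * (p * (-C1 - p ^ 2 * c1 + p ^ 2 * (v2 + v6) + p ^ 3 * v1
      - p ^ 6 * k1)) := by
      linear_combination -hk1
    exact ⟨_, mul_left_cancel₀ hp this⟩
  have e2 : (p : ℤ) ∣ E5 - al := by
    refine ⟨tv + p * v3 - A5 - p * C5 - p ^ 3 * k2, ?_⟩
    linear_combination -hk2
  have e3 : (p : ℤ) ∣ E6 := by
    refine ⟨p * v6 - A6 - p * C6 - p ^ 3 * k3, ?_⟩
    linear_combination -hk3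
  clear hk1 hk2 hk3 hv
  -- the vector `w`
  have hw := hL _ ⟨0, 1, 0, 0, 0, 0, 0, 0, rfl⟩
  obtain ⟨ga, de, w1, w2, w3, w4, w5, w6, hw⟩ := hw
  unfold lp at hw
  rw [he, mkp_eq_iff] at hw
  obtain ⟨⟨k1, hk1⟩, ⟨k2, hk2⟩⟩ := hw.1
  obtain ⟨⟨k3, hk3⟩, -⟩ := hw.2.2
  obtain ⟨g, hg⟩ : ∃ g, ga = p ^ 2 * g := by
    refine ⟨B1 - p * D1 + p ^ 2 * c1 - p * (w2 + w6) - p ^ 2 * w1 + p ^ 5 * k1, ?_⟩
    apply mul_left_cancel₀ hp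
    linear_combination hk1
  subst hg
  have e4 : (p : ℤ) ∣ B2 - de := by
    have : (p : ℤ) ^ 3 * (B2 - de) = p ^ 3 * (p * (w4 - p * w6 + p ^ 3 * w5 + D2 - p * c2 -
        p ^ 4 * k2)) := by
      linear_combination -hk2
    exact ⟨_, mul_left_cancel₀ (pow_ne_zero 3 hp) this⟩
  have e5 : (p : ℤ) ∣ E5 - de := by
    have : (p : ℤ) * (E5 - de) = p * (p * (g + w3 - p * B5 + p ^ 2 * D5 - p ^ 2 * k3)) := by
      linear_combination -hk3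
    exact ⟨_, mul_left_cancel₀ hp this⟩
  clear hk1 hk2 hk3 hw
  -- the trace
  have htr := adj (mkp p 1 0 0 0 0 0) (mkp p 0 1 0 0 0 0)
  rw [hA, hB, q_mkp, q_mkp, q_mkp, ← Int.cast_add, ZMod.intCast_eq_intCast_iff_dvd_sub] at htr
  obtain ⟨k4, hk4⟩ := htr
  have e6 : (p : ℤ) ∣ A1 + B2 - 1 := by
    have : (p : ℤ) ^ 2 * (A1 + B2 - 1) = p ^ 2 * (p * (-p ^ 7 * k4)) := by
      push_cast at hk4
      linear_combination -hk4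
    exact ⟨_, mul_left_cancel₀ (pow_ne_zero 2 hp) this⟩
  -- idempotency
  have hid := idem (mkp p 0 0 0 0 1 0)
  rw [hE, he, mkp_eq_iff] at hid
  obtain ⟨k5, hk5⟩ := hid.2.2.1
  obtain ⟨m3, hm3⟩ := e3
  have e7 : (p : ℤ) ∣ E5 * E5 - E5 := by
    refine ⟨-(p ^ 3 * c1 * A5 + p ^ 3 * c2 * B5 + p ^ 5 * c3 * C5 + p ^ 5 * c4 * D5 + m3 * F5 +
      p ^ 3 * k5), ?_⟩
    rw [hm3] at hk5
    linear_combination -hk5
  obtain ⟨r1, hr1⟩ := e1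
  obtain ⟨r2, hr2⟩ := e2
  obtain ⟨r4, hr4⟩ := e4
  obtain ⟨r5, hr5⟩ := e5
  obtain ⟨r6, hr6⟩ := e6
  obtain ⟨r7, hr7⟩ := e7
  have e8 : 2 * E5 - 1 = p * (r2 + r5 - r1 - r4 + r6) := by
    linear_combination hr2 + hr5 - hr1 - hr4 + hr6
  have e9 : (p : ℤ) ∣ 1 := by
    refine ⟨(r2 + r5 - r1 - r4 + r6) * (2 * E5 - 1) - 4 * r7, ?_⟩
    linear_combination (2 * E5 - 1) * e8 - 4 * hr7
  have := Int.isUnit_iff.1 (isUnit_of_dvd_one e9)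
  have h2 := hpf.out.two_le
  omega

end Pool.Agent.D0H76.Mumford
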